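import Pool.Agent.P8H71.SK.Stm

/-!
# Project SK: package REC, Poincaré recurrence of the sections
-/

set_option autoImplicit false

open MeasureTheory Set Filter Topology
open scoped ENNReal symmDiff

namespace Pool.Agent.P8H42.SK

open Pool.Agent.P8H71.SK

theorem rec : S_REC := by
  intro Y X _ _ _ ν _ m _ T hT S hS
  obtain ⟨A, hAc, hAd⟩ := exists_countable_measureDense (μ := m)
  -- the sets of the Poincaré recurrence
  let W : Set X → ℕ → Set Y := fun D k =>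
    {y | m ((Prod.mk y ⁻¹' S) ∆ D) < ENNReal.ofReal (1 / (2 * ((k : ℝ) + 1)))}
  have hW : ∀ D ∈ A, ∀ k, MeasurableSet (W D k) := by
    intro D hD k
    have hDm := hAd.measurable D hD
    have h1 : MeasurableSet (S ∆ ((univ : Set Y) ×ˢ D)) := hS.symmDiff (MeasurableSet.univ.prod hDm)
    have h2 := measurable_measure_prodMk_left (ν := m) h1
    have h3 : ∀ y : Y, Prod.mk y ⁻¹' (S ∆ ((univ : Set Y) ×ˢ D)) = (Prod.mk y ⁻¹' S) ∆ D := by
      intro y
      ext x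
      simp [Set.mem_symmDiff]
    simp only [h3] at h2
    exact measurableSet_lt h2 measurable_const
  have key : ∀ᵐ y ∂ν, ∀ D ∈ A, ∀ k : ℕ, y ∈ W D k → ∃ᶠ n in atTop, T^[n] y ∈ W D k := by
    rw [ae_ball_iff hAc]
    intro D hD
    rw [ae_all_iff]
    intro k
    exact (hT.conservative).ae_mem_imp_frequently_image_mem (hW D hD k).nullMeasurableSet
  filter_upwards [key] with y hy
  intro ε hε
  obtain ⟨k, hk⟩ := exists_nat_one_div_lt hε
  have hk0 : (0 : ℝ) < (k : ℝ) + 1 := by positivity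
  have hSy : MeasurableSet (Prod.mk y ⁻¹' S) := measurable_prodMk_left hS
  obtain ⟨D, hD, hD1⟩ := hAd.approx _ hSy (measure_ne_top _ _) (1 / (2 * ((k : ℝ) + 1))) (by positivity)
  have h1 := hy D hD k hD1
  refine h1.mono fun n hn => ?_
  have hn' : m ((Prod.mk (T^[n] y) ⁻¹' S) ∆ D) < ENNReal.ofReal (1 / (2 * ((k : ℝ) + 1))) := hn
  have h2 : m ((Prod.mk (T^[n] y) ⁻¹' S) ∆ (Prod.mk y ⁻¹' S)) ≤
      m ((Prod.mk (T^[n] y) ⁻¹' S) ∆ D) + m (D ∆ (Prod.mk y ⁻¹' S)) := measure_symmDiff_le _ _ _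
  have h3 : m ((Prod.mk (T^[n] y) ⁻¹' S) ∆ (Prod.mk y ⁻¹' S)) < ENNReal.ofReal ε := by
    calc m ((Prod.mk (T^[n] y) ⁻¹' S) ∆ (Prod.mk y ⁻¹' S))
        ≤ m ((Prod.mk (T^[n] y) ⁻¹' S) ∆ D) + m (D ∆ (Prod.mk y ⁻¹' S)) := h2
      _ ≤ ENNReal.ofReal (1 / (2 * ((k : ℝ) + 1))) + ENNReal.ofReal (1 / (2 * ((k : ℝ) + 1))) := by
          refine add_le_add hn'.le ?_
          rw [symmDiff_comm]
          exact hD1.le
      _ = ENNReal.ofReal (1 / ((k : ℝ) + 1)) := by
          rw [← ENNReal.ofReal_add (by positivity) (by positivity)]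
          congr 1
          field_simp
          ring
      _ < ENNReal.ofReal ε := (ENNReal.ofReal_lt_ofReal_iff hε).2 hk
  exact (ENNReal.toReal_lt_of_lt_ofReal h3)

end Pool.Agent.P8H42.SK
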